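import Pool.Agent.Helper70.LA.Defs

/-!
# MP_c61924_co, module CNT: counting shapes, the total error
-/

set_option autoImplicit false

namespace Pool.Agent.Helper70.LA

open Finset

section cnt

variable {ι : Type} [Fintype ι] [DecidableEq ι]

private theorem cnt_mem_shapes {n : ℕ} {r : ι → ℕ} : r ∈ shapes ι n ↔ ∑ i, r i = n := by
  unfold shapes
  rw [mem_filter, Fintype.mem_piFinset]
  constructor
  · exact fun h => h.2
  · intro h
    refine ⟨fun i => ?_, h⟩
    rw [mem_range]
    have : r i ≤ ∑ j, r j := single_le_sum (f := r) (fun j _ => Nat.zero_le _) (mem_univ i)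
    omega

theorem shapes_card_lower (n : ℕ) (hk : 1 ≤ Fintype.card ι) :
    (n + 1) ^ (Fintype.card ι - 1) ≤
      Fintype.card ι ^ (Fintype.card ι - 1) * (shapes ι n).card := by
  obtain ⟨i0⟩ : Nonempty ι := Fintype.card_pos_iff.1 hk
  set k := Fintype.card ι with hkdef
  set m := n / k with hm
  have hmk : m * k ≤ n := Nat.div_mul_le_self n k
  have hlt : n + 1 ≤ k * (m + 1) := by
    have := Nat.lt_mul_div_succ n hk
    rw [← hm] at this
    omega
  set B : Finset (ι → ℕ) := Fintype.piFinset fun i => if i = i0 then {0} else range (m + 1) with hB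
  have hBcard : B.card = (m + 1) ^ (k - 1) := by
    rw [hB, Fintype.card_piFinset]
    have : ∀ i, (if i = i0 then ({0} : Finset ℕ) else range (m + 1)).card =
        if i = i0 then 1 else m + 1 := by
      intro i
      split_ifs <;> simp
    rw [prod_congr rfl fun i _ => this i, ← mul_prod_erase univ _ (mem_univ i0)]
    rw [if_pos rfl, one_mul, prod_congr rfl (g := fun _ => m + 1), prod_const,
      card_erase_of_mem (mem_univ _), card_univ]
    intro i hi
    rw [if_neg (ne_of_mem_erase hi)]
  have hBle : B.card ≤ (shapes ι n).card := by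
    refine card_le_card_of_injOn (fun s => Function.update s i0 (n - ∑ i, s i)) ?_ ?_
    · intro s hs
      rw [mem_coe, hB, Fintype.mem_piFinset] at hs
      have hs0 : s i0 = 0 := by
        have := hs i0
        simpa using this
      have hsi : ∀ i, s i ≤ m := by
        intro i
        have := hs i
        split_ifs at this with h
        · rw [mem_singleton] at this
          rw [this]
          exact Nat.zero_le _
        · rw [mem_range] at this
          exact Nat.lt_succ_iff.1 this
      have hsum : ∑ i, s i ≤ n := by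
        calc ∑ i, s i ≤ ∑ _i : ι, m := sum_le_sum fun i _ => hsi i
          _ = m * k := by rw [sum_const, card_univ, smul_eq_mul, mul_comm]
          _ ≤ n := hmk
      rw [mem_coe, cnt_mem_shapes, ← add_sum_erase _ _ (mem_univ i0)]
      have e : ∑ x ∈ univ.erase i0, Function.update s i0 (n - ∑ i, s i) x =
          ∑ x ∈ univ.erase i0, s x := by
        refine sum_congr rfl fun x hx => ?_
        rw [Function.update_of_ne (ne_of_mem_erase hx)]
      have e2 : ∑ i, s i = ∑ x ∈ univ.erase i0, s x := by
        rw [← add_sum_erase _ _ (mem_univ i0), hs0, zero_add]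
      dsimp only
      rw [Function.update_self, e, ← e2]
      exact Nat.sub_add_cancel hsum
    · intro s hs t ht h
      rw [mem_coe, hB, Fintype.mem_piFinset] at hs ht
      have hs0 : s i0 = 0 := by
        have := hs i0
        simpa using this
      have ht0 : t i0 = 0 := by
        have := ht i0
        simpa using this
      funext i
      by_cases hi : i = i0
      · rw [hi, hs0, ht0]
      · have := congrFun h i
        simpa [Function.update_of_ne hi] using this
  calc (n + 1) ^ (k - 1) ≤ (k * (m + 1)) ^ (k - 1) := Nat.pow_le_pow_left hlt _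
    _ = k ^ (k - 1) * (m + 1) ^ (k - 1) := mul_pow _ _ _
    _ ≤ k ^ (k - 1) * (shapes ι n).card := by
        rw [← hBcard]
        exact Nat.mul_le_mul_left _ hBle

/-- number of shapes extending given levels on a nonempty set -/
theorem ext_card_le (n : ℕ) (hk : 2 ≤ Fintype.card ι) (I : Finset ι) (hI : I.Nonempty)
    (s : ι → ℕ) :
    ((shapes ι n).filter fun r => ∀ i ∈ I, r i = s i).card ≤ (n + 1) ^ (Fintype.card ι - 2) := by
  obtain ⟨i0, hi0⟩ := hI
  obtain ⟨j, hj⟩ : ∃ j : ι, j ≠ i0 := by
    have : Nontrivial ι := Fintype.one_lt_card_iff_nontrivial.1 (by omega)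
    exact exists_ne i0
  set B : Finset (ι → ℕ) := Fintype.piFinset fun i => if i = i0 ∨ i = j then {0} else range (n + 1)
    with hB
  have hBcard : B.card = (n + 1) ^ (Fintype.card ι - 2) := by
    rw [hB, Fintype.card_piFinset]
    have h1 : ∀ i, (if i = i0 ∨ i = j then ({0} : Finset ℕ) else range (n + 1)).card =
        if i = i0 ∨ i = j then 1 else n + 1 := by
      intro i
      split_ifs <;> simp
    rw [prod_congr rfl fun i _ => h1 i, prod_ite, prod_const_one, one_mul, prod_const]
    congr 1
    have h2 : (univ.filter fun x => ¬ (x = i0 ∨ x = j)) = univ \ {i0, j} := by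
      ext x
      simp
    rw [h2, card_sdiff_of_subset (subset_univ _), card_univ, card_pair (Ne.symm hj)]
  rw [← hBcard]
  refine card_le_card_of_injOn (fun r i => if i = i0 ∨ i = j then 0 else r i) ?_ ?_
  · intro r hr
    rw [mem_coe, mem_filter] at hr
    rw [mem_coe, hB, Fintype.mem_piFinset]
    intro i
    dsimp only
    split_ifs with h
    · simp
    · have h3 := hr.1
      unfold shapes at h3
      rw [mem_filter, Fintype.mem_piFinset] at h3
      exact h3.1 i
  · intro r hr t ht h
    rw [mem_coe, mem_filter, cnt_mem_shapes] at hr ht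
    have hoff : ∀ i, i ≠ j → r i = t i := by
      intro i hij
      by_cases h0 : i = i0
      · rw [h0, hr.2 i0 hi0, ht.2 i0 hi0]
      · have := congrFun h i
        simpa [h0, hij] using this
    funext i
    by_cases hij : i = j
    · subst hij
      have e1 := hr.1
      have e2 := ht.1
      rw [← add_sum_erase _ _ (mem_univ i)] at e1 e2
      have e3 : ∑ x ∈ univ.erase i, r x = ∑ x ∈ univ.erase i, t x :=
        sum_congr rfl fun x hx => hoff x (ne_of_mem_erase hx)
      omega
    · exact hoff i hij

/-- sum over shapes of a function of the levels in `I` -/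
theorem sum_shapes_le (n : ℕ) (hk : 2 ≤ Fintype.card ι) (I : Finset ι) (hI : I.Nonempty)
    (a : (ι → ℕ) → ℝ) (ha : ∀ r, 0 ≤ a r) (hdep : ∀ r r', (∀ i ∈ I, r i = r' i) → a r = a r')
    (A : ℝ) (hA : ∑ r ∈ box I n, a r ^ 2 ≤ A) :
    ∑ r ∈ shapes ι n, a r ≤
      √A * √((n + 1) ^ (Fintype.card ι - 2) * (shapes ι n).card) := by
  set res : (ι → ℕ) → (ι → ℕ) := fun r i => if i ∈ I then r i else 0 with hres
  have hmem : ∀ r ∈ shapes ι n, res r ∈ box I n := by
    intro r hr
    unfold shapes at hr
    rw [mem_filter, Fintype.mem_piFinset] at hr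
    unfold box
    rw [Fintype.mem_piFinset]
    intro i
    simp only [hres]
    split_ifs with h
    · exact hr.1 i
    · simp
  set N : (ι → ℕ) → ℕ := fun s => ((shapes ι n).filter fun r => res r = s).card with hN
  have hNle : ∀ s, N s ≤ (n + 1) ^ (Fintype.card ι - 2) := by
    intro s
    refine le_trans (card_le_card ?_) (ext_card_le n hk I hI s)
    intro r hr
    rw [mem_filter] at hr ⊢
    refine ⟨hr.1, fun i hi => ?_⟩
    rw [← hr.2]
    simp [hres, hi]
  have h1 : ∑ r ∈ shapes ι n, a r = ∑ s ∈ box I n, (N s : ℝ) * a s := by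
    rw [← sum_fiberwise_of_maps_to hmem]
    refine sum_congr rfl fun s _ => ?_
    rw [hN, ← nsmul_eq_mul, ← sum_const]
    refine sum_congr rfl fun r hr => ?_
    rw [mem_filter] at hr
    apply hdep
    intro i hi
    rw [← hr.2]
    simp [hres, hi]
  have h2 : ∑ s ∈ box I n, N s = (shapes ι n).card := by
    rw [hN]
    exact (card_eq_sum_card_fiberwise hmem).symm
  have hA0 : 0 ≤ A := le_trans (sum_nonneg fun r _ => sq_nonneg _) hA
  have h3 : (∑ s ∈ box I n, (N s : ℝ) * a s) ^ 2 ≤
      ((n + 1) ^ (Fintype.card ι - 2) * (shapes ι n).card) * A := by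
    calc (∑ s ∈ box I n, (N s : ℝ) * a s) ^ 2
        ≤ (∑ s ∈ box I n, (N s : ℝ) ^ 2) * ∑ s ∈ box I n, a s ^ 2 :=
          sum_mul_sq_le_sq_mul_sq _ _ _
      _ ≤ (((n : ℝ) + 1) ^ (Fintype.card ι - 2) * (shapes ι n).card) * A := by
          apply mul_le_mul _ hA (sum_nonneg fun r _ => sq_nonneg _) (by positivity)
          calc ∑ s ∈ box I n, (N s : ℝ) ^ 2
              ≤ ∑ s ∈ box I n, ((n : ℝ) + 1) ^ (Fintype.card ι - 2) * (N s : ℝ) := by
                refine sum_le_sum fun s _ => ?_
                rw [sq]
                have : (N s : ℝ) ≤ ((n : ℝ) + 1) ^ (Fintype.card ι - 2) := by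
                  exact_mod_cast hNle s
                gcongr
            _ = _ := by
                rw [← mul_sum, ← h2]
                push_cast
                rfl
  rw [h1, ← Real.sqrt_mul hA0]
  apply Real.le_sqrt_of_sq_le
  rw [mul_comm A]
  exact h3

end cnt

end Pool.Agent.Helper70.LA
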