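import Pool.Agent.Helper70.LA.Base

/-!
# MP_c61924_co, module EELA: resampling, symmetry, duality, support
-/

set_option autoImplicit false

namespace Pool.Agent.Helper70.LA

open Finset

section eela

variable {K : Type} [Fintype K] [DecidableEq K] {ι : Type} [DecidableEq ι]

theorem mix_US_symmDiff (U : ι → Finset K) (I : Finset ι)
    (hU : (I : Set ι).PairwiseDisjoint U) {S T : Finset ι} (hS : S ⊆ I) (hT : T ⊆ I)
    (x y : K → Bool) :
    mix (US U T) (mix (US U S) x y) (mix (US U S) y x) = mix (US U (symmDiff S T)) x y := by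
  funext k
  have hu : ∀ i ∈ I, ∀ j ∈ I, k ∈ U i → k ∈ U j → i = j := by
    intro i hi j hj h1 h2
    by_contra hne
    exact (Finset.disjoint_left.1 (hU hi hj hne)) h1 h2
  have key : k ∈ US U (symmDiff S T) ↔ ¬ (k ∈ US U S ↔ k ∈ US U T) := by
    unfold US
    simp only [mem_biUnion, mem_symmDiff]
    constructor
    · rintro ⟨i, hi | hi, hk⟩ hiff
      · obtain ⟨j, hj, hk'⟩ := hiff.1 ⟨i, hi.1, hk⟩
        have := hu i (hS hi.1) j (hT hj) hk hk'
        subst this
        exact hi.2 hj
      · obtain ⟨j, hj, hk'⟩ := hiff.2 ⟨i, hi.1, hk⟩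
        have := hu i (hT hi.1) j (hS hj) hk hk'
        subst this
        exact hi.2 hj
    · intro hn
      by_cases h1 : ∃ a ∈ S, k ∈ U a
      · have h2 : ¬ ∃ a ∈ T, k ∈ U a := fun h2 => hn ⟨fun _ => h2, fun _ => h1⟩
        obtain ⟨a, ha, hk⟩ := h1
        exact ⟨a, Or.inl ⟨ha, fun hT' => h2 ⟨a, hT', hk⟩⟩, hk⟩
      · have h2 : ∃ a ∈ T, k ∈ U a := by
          by_contra h2
          exact hn ⟨fun h => absurd h h1, fun h => absurd h h2⟩
        obtain ⟨a, ha, hk⟩ := h2
        exact ⟨a, Or.inr ⟨ha, fun hS' => h1 ⟨a, hS', hk⟩⟩, hk⟩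
  unfold mix
  by_cases h1 : k ∈ US U S <;> by_cases h2 : k ∈ US U T <;> simp [h1, h2, key]

theorem good_swap (U : ι → Finset K) (I : Finset ι)
    (hU : (I : Set ι).PairwiseDisjoint U) (Q : Set (K → Bool)) {S : Finset ι} (hS : S ⊆ I)
    (x y : K → Bool) :
    Good U I Q (mix (US U S) x y) (mix (US U S) y x) ↔ Good U I Q x y := by
  have hsub : ∀ T ⊆ I, symmDiff S T ⊆ I := by
    intro T hT i hi
    rw [mem_symmDiff] at hi
    rcases hi with hi | hi
    · exact hS hi.1
    · exact hT hi.1
  constructor
  · intro h T hT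
    have := h (symmDiff S T) (hsub T hT)
    rw [mix_US_symmDiff U I hU hS (hsub T hT)] at this
    rwa [symmDiff_symmDiff_cancel_left] at this
  · intro h T hT
    rw [mix_US_symmDiff U I hU hS hT]
    exact h _ (hsub T hT)

theorem mu_le_one (U : ι → Finset K) (I : Finset ι) (Q : Set (K → Bool)) (x : K → Bool) :
    mu U I Q x ≤ 1 := by
  unfold mu
  calc av (ind {y | Good U I Q x y}) ≤ av (fun _ => 1) := av_mono fun y => ind_le_one _ y
    _ = 1 := av_const 1

/-- the bad set is small -/
theorem av_not_good_le (U : ι → Finset K) (I : Finset ι) (Q : Set (K → Bool)) (η : ℝ)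
    (hη : 0 ≤ η) (hQ : SelfCons U I Q η) (x : K → Bool) (hx : x ∈ Q) :
    av (ind {y | ¬ Good U I Q x y}) ≤ 2 ^ I.card * η := by
  have h1 : ∀ y, ind {y | ¬ Good U I Q x y} y ≤
      ∑ T ∈ I.powerset.erase ∅, ind Qᶜ (mix (US U T) x y) := by
    intro y
    by_cases hy : Good U I Q x y
    · rw [ind_of_notMem (by simpa using hy)]
      exact sum_nonneg fun T _ => ind_nonneg _ _
    · rw [ind_of_mem (by simpa using hy)]
      unfold Good at hy
      push Not at hy
      obtain ⟨T, hT, hTQ⟩ := hy
      have hne : T ≠ ∅ := by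
        rintro rfl
        rw [US_empty, mix_empty] at hTQ
        exact hTQ hx
      have hmem : T ∈ I.powerset.erase ∅ := mem_erase.2 ⟨hne, mem_powerset.2 hT⟩
      calc (1 : ℝ) = ind Qᶜ (mix (US U T) x y) := (ind_of_mem hTQ).symm
        _ ≤ _ := single_le_sum (f := fun T => ind Qᶜ (mix (US U T) x y))
            (fun T _ => ind_nonneg _ _) hmem
  calc av (ind {y | ¬ Good U I Q x y})
      ≤ av fun y => ∑ T ∈ I.powerset.erase ∅, ind Qᶜ (mix (US U T) x y) := av_mono h1
    _ = ∑ T ∈ I.powerset.erase ∅, av fun y => ind Qᶜ (mix (US U T) x y) :=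
        av_sum _ fun T y => ind Qᶜ (mix (US U T) x y)
    _ ≤ ∑ _T ∈ I.powerset.erase ∅, η := by
        refine sum_le_sum fun T hT => ?_
        rw [mem_erase, mem_powerset] at hT
        exact hQ x hx T hT.2 (nonempty_iff_ne_empty.2 hT.1)
    _ = ((I.powerset.erase ∅).card : ℝ) * η := by rw [sum_const, nsmul_eq_mul]
    _ ≤ 2 ^ I.card * η := by
        have : (I.powerset.erase ∅).card ≤ 2 ^ I.card := by
          rw [← card_powerset]
          exact card_le_card (erase_subset _ _)
        have h2 : ((I.powerset.erase ∅).card : ℝ) ≤ 2 ^ I.card := by exact_mod_cast this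
        exact mul_le_mul_of_nonneg_right h2 hη

theorem le_mu (U : ι → Finset K) (I : Finset ι) (Q : Set (K → Bool)) (η : ℝ)
    (hη : 0 ≤ η) (hQ : SelfCons U I Q η) (x : K → Bool) (hx : x ∈ Q) :
    1 - 2 ^ I.card * η ≤ mu U I Q x := by
  have h1 := av_not_good_le U I Q η hη hQ x hx
  have h2 : mu U I Q x = 1 - av (ind {y | ¬ Good U I Q x y}) := by
    unfold mu
    have e : ind {y | Good U I Q x y} =
        fun y => (1 : ℝ) - ind {y | ¬ Good U I Q x y} y := by
      funext y
      have : {y | Good U I Q x y} = {y | ¬ Good U I Q x y}ᶜ := by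
        ext y
        simp
      rw [this, ind_compl]
    rw [e, av_sub (fun _ => 1), av_const]
  rw [h2]
  linarith

theorem resample_support (U : ι → Finset K) (I : Finset ι) (Q : Set (K → Bool))
    (v : (K → Bool) → ℝ) (z : K → Bool) (hz : z ∉ Q) : resample U I Q v z = 0 := by
  unfold resample
  refine sum_eq_zero fun S _ => ?_
  have : (fun w => ind {y | Good U I Q z y} w *
      (v (mix (US U S) z w) / mu U I Q (mix (US U S) z w))) = fun _ => 0 := by
    funext w
    have hw : w ∉ {y | Good U I Q z y} := by
      intro hw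
      have := hw ∅ (empty_subset _)
      rw [US_empty, mix_empty] at this
      exact hz this
    rw [ind_of_notMem hw, zero_mul]
  rw [this, av_const, mul_zero]

/-- the resampling duality -/
theorem av_resample_mul (U : ι → Finset K) (I : Finset ι)
    (hU : (I : Set ι).PairwiseDisjoint U) (Q : Set (K → Bool)) (v g : (K → Bool) → ℝ) :
    (av fun z => resample U I Q v z * g z) =
      av fun x => av fun y => (v x / mu U I Q x) * (ind {y | Good U I Q x y} y *
        ∑ S ∈ I.powerset.erase ∅, (-1) ^ (S.card + 1) * g (mix (US U S) x y)) := by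
  have h1 : ∀ S ∈ I.powerset.erase ∅,
      (av fun z => av fun w => ind {y | Good U I Q z y} w *
        (v (mix (US U S) z w) / mu U I Q (mix (US U S) z w)) * g z) =
      av fun x => av fun y => (v x / mu U I Q x) * (ind {y | Good U I Q x y} y *
        g (mix (US U S) x y)) := by
    intro S hS
    rw [mem_erase, mem_powerset] at hS
    rw [← av_av_swap (US U S) (fun z w => ind {y | Good U I Q z y} w *
        (v (mix (US U S) z w) / mu U I Q (mix (US U S) z w)) * g z)]
    congr 1
    funext x
    congr 1
    funext y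
    have e1 : ind {w | Good U I Q (mix (US U S) x y) w} (mix (US U S) y x) =
        ind {y | Good U I Q x y} y := by
      by_cases hg : Good U I Q x y
      · rw [ind_of_mem (show y ∈ {y | Good U I Q x y} from hg),
          ind_of_mem (show mix (US U S) y x ∈ {w | Good U I Q (mix (US U S) x y) w} from
            (good_swap U I hU Q hS.2 x y).2 hg)]
      · rw [ind_of_notMem (show y ∉ {y | Good U I Q x y} from hg),
          ind_of_notMem (show mix (US U S) y x ∉ {w | Good U I Q (mix (US U S) x y) w} from
            fun hc => hg ((good_swap U I hU Q hS.2 x y).1 hc))]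
    rw [mix_swap, e1]
    ring
  calc (av fun z => resample U I Q v z * g z)
      = av fun z => ∑ S ∈ I.powerset.erase ∅, (-1) ^ (S.card + 1) *
          av fun w => ind {y | Good U I Q z y} w *
            (v (mix (US U S) z w) / mu U I Q (mix (US U S) z w)) * g z := by
        congr 1
        funext z
        unfold resample
        rw [sum_mul]
        refine sum_congr rfl fun S _ => ?_
        rw [av_mul_right, mul_assoc]
    _ = ∑ S ∈ I.powerset.erase ∅, av fun z => (-1) ^ (S.card + 1) *
          av fun w => ind {y | Good U I Q z y} w *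
            (v (mix (US U S) z w) / mu U I Q (mix (US U S) z w)) * g z := av_sum _ _
    _ = ∑ S ∈ I.powerset.erase ∅, (-1) ^ (S.card + 1) *
          av fun x => av fun y => (v x / mu U I Q x) * (ind {y | Good U I Q x y} y *
            g (mix (US U S) x y)) := by
        refine sum_congr rfl fun S hS => ?_
        rw [av_mul_left, h1 S hS]
    _ = ∑ S ∈ I.powerset.erase ∅, av fun x => av fun y => (-1) ^ (S.card + 1) *
          ((v x / mu U I Q x) * (ind {y | Good U I Q x y} y * g (mix (US U S) x y))) := by
        refine sum_congr rfl fun S _ => ?_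
        rw [← av_mul_left]
        congr 1
        funext x
        rw [← av_mul_left]
    _ = av fun x => ∑ S ∈ I.powerset.erase ∅, av fun y => (-1) ^ (S.card + 1) *
          ((v x / mu U I Q x) * (ind {y | Good U I Q x y} y * g (mix (US U S) x y))) :=
        (av_sum _ _).symm
    _ = av fun x => av fun y => ∑ S ∈ I.powerset.erase ∅, (-1) ^ (S.card + 1) *
          ((v x / mu U I Q x) * (ind {y | Good U I Q x y} y * g (mix (US U S) x y))) := by
        congr 1
        funext x
        exact (av_sum _ _).symm
    _ = _ := by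
        congr 1
        funext x
        congr 1
        funext y
        rw [mul_sum, mul_sum]
        refine sum_congr rfl fun S _ => ?_
        ring

end eela

end Pool.Agent.Helper70.LA
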